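import Pool.Agent.Work.MP_f4b807_an.Shadow

set_option autoImplicit false

open Set Filter Topology Metric

namespace Pool.Agent.Results.MP_f4b807_an.Shadowing

/-- `R(K)`: the closure in `C(K)` of the rational functions with no pole on `K`. -/
def RK (K : Set ℂ) : Set C(K, ℂ) :=
  closure {f | ∃ r : RatFunc ℂ, (∀ z ∈ K, r.denom.eval z ≠ 0) ∧
    ∀ z : K, f z = r.num.eval (z : ℂ) / r.denom.eval (z : ℂ)}

/-- `x₀` is a peak point for `R(K)`. -/
def IsPeakPoint (K : Set ℂ) (x₀ : K) : Prop :=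
  ∃ f ∈ RK K, f x₀ = 1 ∧ ∀ x, x ≠ x₀ → ‖f x‖ < 1

theorem result (K : Set ℂ) (hK : IsCompact K) (x₀ : K) (h : ¬ IsPeakPoint K x₀)
    (ε : ℝ) (hε : 0 < ε) :
    ∃ δ₀ : ℝ, 0 < δ₀ ∧ ∀ δ : ℝ, 0 < δ → δ ≤ δ₀ →
      ∀ P : C(unitInterval, ℂ), P 1 = x₀ → (∀ t, dist (P t) x₀ ≤ δ) →
        ∃ γ : C(unitInterval, K), γ 1 = x₀ ∧ γ 0 ≠ x₀ ∧
          ∀ t, dist (γ t : ℂ) (P t) ≤ ε * δ := by
  have : CompactSpace K := isCompact_iff_compactSpace.1 hK
  obtain ⟨δ₀, h0, h1⟩ := NonPeak.shadow hK x₀.2 (ε := ε) (by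
    rintro ⟨f, f1, f2, f3⟩
    have key : ∀ η : ℝ, 0 < η → ∃ g : C(K, ℂ), (∃ r : RatFunc ℂ, (∀ z ∈ K, r.denom.eval z ≠ 0) ∧
        ∀ z : K, g z = r.num.eval (z : ℂ) / r.denom.eval (z : ℂ)) ∧
        ∀ z : K, dist (f z) (g z) < η := by
      intro η hη
      obtain ⟨p, q, hq, hpq⟩ := f1 η hη
      have q0 : q ≠ 0 := fun e => hq x₀ x₀.2 (by simp [e])
      set r : RatFunc ℂ := algebraMap _ _ p / algebraMap _ _ q with hr
      have hd : ∀ z ∈ K, r.denom.eval z ≠ 0 := fun z hz e =>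
        hq z hz (Polynomial.eval_eq_zero_of_dvd_of_eval_eq_zero (RatFunc.denom_div_dvd p q) e)
      refine ⟨⟨fun z => p.eval (z : ℂ) / q.eval (z : ℂ),
        (p.continuous.comp continuous_subtype_val).div (q.continuous.comp continuous_subtype_val)
          fun z => hq z z.2⟩, ⟨r, hd, fun z => ?_⟩, fun z => ?_⟩
      · have e := congrArg (Polynomial.eval (z : ℂ)) ((RatFunc.num_mul_eq_mul_denom_iff q0).2 hr)
        rw [Polynomial.eval_mul, Polynomial.eval_mul] at e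
        exact (div_eq_div_iff (hq z z.2) (hd z z.2)).2 e.symm
      · rw [dist_eq_norm]
        exact hpq z z.2
    have hc : Continuous fun z : K => f z := continuous_of_uniform_approx_of_continuous fun u hu => by
      obtain ⟨η, hη, hu'⟩ := Metric.mem_uniformity_dist.1 hu
      obtain ⟨g, -, hg⟩ := key η hη
      exact ⟨g, g.continuous, fun z => hu' (hg z)⟩
    refine h ⟨⟨_, hc⟩, Metric.mem_closure_iff.2 fun η hη => ?_, f2,
      fun x hx => f3 x x.2 fun e => hx (Subtype.ext e)⟩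
    obtain ⟨g, g1, g2⟩ := key η hη
    exact ⟨g, g1, (ContinuousMap.dist_lt_iff hη).2 g2⟩) hε
  refine ⟨δ₀, h0, fun δ d0 d1 P P1 P2 => ?_⟩
  obtain ⟨Q, Q1, Q2, Q3, Q4, Q5⟩ := h1 δ d0 d1 (fun t => P (projIcc 0 1 zero_le_one t))
    (P.continuous.comp continuous_projIcc) (by simpa using P1) fun t _ => P2 _
  refine ⟨⟨fun t => ⟨Q t, Q2 t t.2⟩, Q1.domRestrict.subtype_mk _⟩, Subtype.ext Q3,
    fun e => Q4 (congrArg Subtype.val e), fun t => ?_⟩
  simpa using Q5 t t.2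

end Pool.Agent.Results.MP_f4b807_an.Shadowing
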